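import Pool.Agent.H.MP_7279d0.A

set_option autoImplicit false

open Set Filter Topology Pool.Agent.H.MP_7279d0

namespace Pool.Agent.Results.MP_7e6923_gt.NotCech

theorem result : ¬ IsGδ (range (stoneCechUnit : C(W, W) → StoneCech C(W, W))) := fun h => by
  classical
  have i : IsInducing (stoneCechUnit : C(W, W) → _) := by
    let _ : UniformSpace W := uniformSpaceOfCompactR1
    exact isInducing_stoneCechUnit
  obtain ⟨G, g1, g2⟩ := h.eq_iInter_nat
  obtain ⟨q⟩ : Nonempty W := inferInstance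
  let A : ℕ → Set ℕ := fun j => (fun m => m.unpair.1) ⁻¹' {j}
  have u : ∀ {j k} {t : W}, A j ∈ t.1 → A k ∈ t.1 → j = k := fun a b =>
    (Ultrafilter.nonempty_of_mem (inter_mem a b)).elim fun _ e => e.1.symm.trans e.2
  let X : Set C(W, W) := {g | (∀ j t, A j ∈ t.1 → g t = g (d j) ∧ (g t = xl q.1 ∨ A j ∈ (g t).1)) ∧
    ∀ t, (∀ j, A j ∉ t.1) → g t = xl q.1}
  let F : ℕ → Set C(W, W) := fun n => {g | ∀ j, n ≤ j → g (d j) = xl q.1}
  have c : ∀ t x : W, IsClosed {g : C(W, W) | g t = x} := fun t x =>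
    isClosed_eq (continuous_eval_const t) continuous_const
  have x1 : IsClosed X := by
    simp only [X, ofPred_and, ofPred_forall, ofPred_or]
    exact (isClosed_iInter fun j => isClosed_iInter fun t => isClosed_iInter fun _ =>
      (isClosed_eq (continuous_eval_const _) (continuous_eval_const _)).inter ((c _ _).union
        ((clo _).1.preimage (continuous_eval_const t)))).inter
          (isClosed_iInter fun t => isClosed_iInter fun _ => c _ _)
  have f1 : ∀ n, IsClosed (F n) := fun n => by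
    simp only [F, ofPred_forall]
    exact isClosed_iInter fun t => isClosed_iInter fun _ => c _ _
  have x2 : ∀ g ∈ X, ∃ n, g ∈ F n := fun g hg => by
    by_contra! e
    obtain ⟨v, v1, v2⟩ := two (A := {j | g (d j) ≠ xl q.1}) (infinite_of_forall_exists_gt fun n => by
      simpa [F, and_comm] using e (n + 1)) q.1
    obtain ⟨B, b1, b2⟩ := sep v2.symm
    obtain ⟨j, j1, j2, j3⟩ := Ultrafilter.nonempty_of_mem (inter_mem v1 (inter_mem
      (Ultrafilter.compl_mem_iff_notMem.2 b2) ((g.2.tendsto _).comp (txl v.1) ((clo _).2.mem_nhds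
        (show _ ∈ (g (xl v.1)).1 from hg.2 _ (nxl v) ▸ pxl.2 b1)))))
    obtain ⟨m, m1, m2⟩ := Ultrafilter.nonempty_of_mem
      (inter_mem j3 ((hg.1 j _ (md.2 rfl)).2.resolve_left j1))
    exact j2 ((show _ = j from m2) ▸ m1)
  let K := closure (stoneCechUnit '' X)
  have : CompactSpace K := isCompact_iff_compactSpace.1 isClosed_closure.isCompact
  have : Nonempty K := ⟨_, subset_closure ⟨.const _ (xl q.1), ⟨fun _ _ _ => ⟨rfl, .inl rfl⟩,
    fun _ _ => rfl⟩, rfl⟩⟩
  obtain ⟨n, y, hy⟩ := nonempty_interior_of_iUnion_of_closed (f := fun n => (Subtype.val : K → _) ⁻¹'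
    (closure (stoneCechUnit '' F n) ∪ (⋂ k ≤ n, G k)ᶜ)) (fun n => (isClosed_closure.union
      ((finite_Iic n).isOpen_biInter fun k _ => g1 k).isClosed_compl).preimage
        continuous_subtype_val) (eq_univ_of_forall fun y => by
    by_cases e : y.1 ∈ range stoneCechUnit
    · obtain ⟨g, e⟩ := e
      obtain ⟨n, hn⟩ := x2 g (by
        rw [← x1.closure_eq, i.closure_eq_preimage_closure_image]; exact mem_preimage.2 (e ▸ y.2))
      exact mem_iUnion.2 ⟨n, .inl (subset_closure ⟨g, hn, e⟩)⟩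
    · obtain ⟨n, hn⟩ := not_forall.1 (mt mem_iInter.2 (g2 ▸ e))
      exact mem_iUnion.2 ⟨n, .inr fun k => hn (mem_iInter₂.1 k n le_rfl)⟩)
  obtain ⟨O, o1, o2⟩ := isOpen_induced_iff.1 (isOpen_interior (s := (Subtype.val : K → _) ⁻¹'
    (closure (stoneCechUnit '' F n) ∪ (⋂ k ≤ n, G k)ᶜ)))
  have o3 : ∀ g ∈ X, stoneCechUnit g ∈ O → g ∈ F n := fun g a b => by
    rw [← (f1 n).closure_eq, i.closure_eq_preimage_closure_image]
    exact (interior_subset ((Set.ext_iff.1 o2 ⟨_, subset_closure ⟨g, a, rfl⟩⟩).1 b)).resolve_right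
      fun k => k (mem_iInter₂.2 fun k _ => mem_iInter.1 (g2.le ⟨g, rfl⟩) k)
  obtain ⟨_, a, g, b, rfl⟩ := mem_closure_iff.1 y.2 O o1 (o2.ge hy)
  let g' : ℕ → C(W, W) := fun j => ⟨fun t => if A j ∈ t.1 then d j else g t,
    continuous_const.if (by simp [(clo (A j)).frontier_eq]) g.2⟩
  have e1 : ∀ {j} {t : W}, A j ∈ t.1 → g' j t = d j := fun h => if_pos h
  have e2 : ∀ {j} {t : W}, A j ∉ t.1 → g' j t = g t := fun h => if_neg h
  have e3 : ∀ j, A j ∈ (d j).1 := fun j => md.2 rfl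
  have l : ∀ᶠ j in q.1, n ≤ j := q.2 (Nat.cofinite_eq_atTop ▸ eventually_ge_atTop n)
  have : Tendsto g' q.1 (𝓝 g) := ContinuousMap.tendsto_nhds_compactOpen.2 fun C _ U hU e => by
    by_cases p : xl q.1 ∈ U
    · filter_upwards [txl q.1 (hU.mem_nhds p)] with j hj t ht
      by_cases k : A j ∈ t.1
      exacts [e1 k ▸ hj, e2 k ▸ e ht]
    · filter_upwards [l] with j hj t ht
      exact e2 (fun k => p (((b.1 j t k).1.trans (o3 g b a j hj)) ▸ e ht)) ▸ e ht
  obtain ⟨j, j1, j2⟩ := (l.and (this.eventually ((o1.preimage i.continuous).mem_nhds a))).exists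
  refine nxl q j ((e1 (e3 j)).symm.trans (o3 _ ⟨fun k t e => ?_,
    fun t e => (e2 (e j)).trans (b.2 t e)⟩ j2 j j1) ▸ e3 j)
  by_cases p : k = j
  · subst p
    exact ⟨(e1 e).trans (e1 (e3 k)).symm, .inr (e1 e ▸ e3 k)⟩
  · rw [e2 fun a => p (u e a), e2 fun a => p (u (e3 k) a)]
    exact b.1 k t e

end Pool.Agent.Results.MP_7e6923_gt.NotCech
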